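import Pool.Agent.W347.RN.Quant2

/-! Subtask RN-QUANT of helper691 (MP_2e2259_an), part 3: the two dimensional statement. -/

set_option autoImplicit false

namespace Pool.Agent.W347.RN.Quant

open Pool.Agent.W691.Ran Pool.Agent.Helper150.Iid MeasureTheory
open scoped ENNReal ContDiff

noncomputable section

theorem fone_integrable {U : ℝ → ℝ} (hU : Function.Periodic U 1) (hc : Continuous U) (n : ℤ) :
    Integrable (fun x : UnitAddCircle => (fourier (-n) x : ℂ) * (cf U x : ℂ)) := by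
  have h : Continuous (fun x : UnitAddCircle => (fourier (-n) x : ℂ) * (cf U x : ℂ)) :=
    (fourier (-n)).continuous.mul (Complex.continuous_ofReal.comp (cf_continuous hU hc))
  exact h.integrable_of_hasCompactSupport (HasCompactSupport.of_compactSpace _)

theorem fone_sub {U V : ℝ → ℝ} (hU : Function.Periodic U 1) (hV : Function.Periodic V 1)
    (hUc : Continuous U) (hVc : Continuous V) (n : ℤ) :
    fone (fun x => U x - V x) n = fone U n - fone V n := by
  unfold fone
  rw [← integral_sub (fone_integrable hU hUc n) (fone_integrable hV hVc n)]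
  congr 1
  funext x
  have : cf (fun x => U x - V x) x = cf U x - cf V x := rfl
  rw [this]
  push_cast
  ring

theorem hasSum_two {a b : ℤ → ℝ} (ha0 : ∀ n, 0 ≤ a n) (hb0 : ∀ n, 0 ≤ b n) (ha : Summable a)
    (hb : Summable b) :
    HasSum (fun h : Fin 2 → ℤ => a (h 0) * b (h 1)) ((∑' n, a n) * ∑' n, b n) := by
  have h1 : HasSum (fun p : ℤ × ℤ => a p.1 * b p.2) ((∑' n, a n) * ∑' n, b n) :=
    ha.hasSum.mul hb.hasSum (ha.mul_of_nonneg hb ha0 hb0)
  have h2 := (finTwoArrowEquiv ℤ).hasSum_iff.mpr h1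
  exact h2

theorem volume_coord (Z : Set UnitAddCircle) (i : Fin 2) :
    (volume : Measure (Tor 2)) {x | x i ∈ Z} ≤ (volume : Measure UnitAddCircle) Z := by
  have h := measurePreserving_eval (fun _ : Fin 2 => (volume : Measure UnitAddCircle)) i
  rw [← measure_toMeasurable Z]
  rw [← h.measure_preimage (measurableSet_toMeasurable _ _).nullMeasurableSet]
  apply measure_mono
  intro x hx
  exact subset_toMeasurable _ _ hx

theorem quant : S_QUANT := by
  intro k hk0 hk1 u v hu hv hud hvd ε hε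
  obtain ⟨Au, hAu0, hAu⟩ := periodic_bound hu hud.continuous
  obtain ⟨Av, hAv0, hAv⟩ := periodic_bound hv hvd.continuous
  obtain ⟨Bu, -, hBu⟩ := periodic_bound (periodic_deriv hu) (hud.continuous_deriv (by simp))
  obtain ⟨Bv, -, hBv⟩ := periodic_bound (periodic_deriv hv) (hvd.continuous_deriv (by simp))
  obtain ⟨hsu, -⟩ := norm_bound hk0 hk1 hu hud hAu hBu le_rfl
  obtain ⟨hsv, -⟩ := norm_bound hk0 hk1 hv hvd hAv hBv le_rfl
  set w : ℤ → ℝ := fun n => (1 + (n : ℝ) ^ 2) ^ k with hw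
  have hw0 : ∀ n, 0 ≤ w n := fun n => by
    simp only [hw]
    positivity
  set Nu : ℝ := ∑' n : ℤ, ‖fone u n‖ ^ 2 * w n with hNu
  set Nv : ℝ := ∑' n : ℤ, ‖fone v n‖ ^ 2 * w n with hNv
  have hNu0 : 0 ≤ Nu := tsum_nonneg fun n => mul_nonneg (sq_nonneg _) (hw0 n)
  have hNv0 : 0 ≤ Nv := tsum_nonneg fun n => mul_nonneg (sq_nonneg _) (hw0 n)
  set M : ℝ := 4 + 4 * Nv + 2 * Nu + Au + Av + 2 with hM
  have hMpos : 0 < M := by positivity
  set η : ℝ := min 1 (ε / M) with hη
  have hηpos : 0 < η := lt_min one_pos (by positivity)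
  have hη1 : η ≤ 1 := min_le_left _ _
  have hηM : η * M ≤ ε := by
    have : η ≤ ε / M := min_le_right _ _
    rwa [le_div_iff₀ hMpos] at this
  obtain ⟨ut, G1, Z1, hut, hutd, hZ1, hint1, hn1, hs1, hl1⟩ := quant_one hk0 hk1 hu hud hηpos
  obtain ⟨vt, G2, Z2, hvt, hvtd, hZ2, hint2, hn2, hs2, hl2⟩ := quant_one hk0 hk1 hv hvd hηpos
  set U : Fin 2 → ℝ → ℝ := ![fun x => ut x - u x, u] with hUdef
  set V : Fin 2 → ℝ → ℝ := ![vt, fun x => vt x - v x] with hVdef
  have hUper : ∀ b, Function.Periodic (U b) 1 := by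
    intro b
    fin_cases b
    · intro x
      show ut (x + 1) - u (x + 1) = ut x - u x
      rw [hut x, hu x]
    · exact hu
  have hVper : ∀ b, Function.Periodic (V b) 1 := by
    intro b
    fin_cases b
    · exact hvt
    · intro x
      show vt (x + 1) - v (x + 1) = vt x - v x
      rw [hvt x, hv x]
  have hUc : ∀ b, Continuous (U b) := by
    intro b
    fin_cases b
    · exact hutd.continuous.sub hud.continuous
    · exact hud.continuous
  have hVc : ∀ b, Continuous (V b) := by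
    intro b
    fin_cases b
    · exact hvtd.continuous
    · exact hvtd.continuous.sub hvd.continuous
  have hcont : Continuous fun x : Tor 2 => cf ut (x 0) * cf vt (x 1) :=
    ((cf_continuous hut hutd.continuous).comp (continuous_apply 0)).mul
      ((cf_continuous hvt hvtd.continuous).comp (continuous_apply 1))
  have hcont2 : Continuous fun x : Tor 2 => cf u (x 0) * cf v (x 1) :=
    ((cf_continuous hu hud.continuous).comp (continuous_apply 0)).mul
      ((cf_continuous hv hvd.continuous).comp (continuous_apply 1))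
  refine ⟨fun x => cf ut (x 0) * cf vt (x 1), G1 + G2, {x | x 0 ∈ Z1} ∪ {x | x 1 ∈ Z2}, hcont,
    ?_, ?_, ?_, hcont.sub hcont2, ?_⟩
  · calc (volume : Measure (Tor 2)) ({x | x 0 ∈ Z1} ∪ {x | x 1 ∈ Z2})
        ≤ volume {x : Tor 2 | x 0 ∈ Z1} + volume {x : Tor 2 | x 1 ∈ Z2} := measure_union_le _ _
      _ ≤ ENNReal.ofReal η + ENNReal.ofReal η :=
          add_le_add ((volume_coord Z1 0).trans hZ1) ((volume_coord Z2 1).trans hZ2)
      _ = ENNReal.ofReal (η + η) := (ENNReal.ofReal_add hηpos.le hηpos.le).symm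
      _ ≤ ENNReal.ofReal ε := by
          apply ENNReal.ofReal_le_ofReal
          have : η * 2 ≤ η * M := by
            apply mul_le_mul_of_nonneg_left _ hηpos.le
            rw [hM]
            linarith
          linarith
  · intro x hx
    rw [Set.mem_union, not_or] at hx
    obtain ⟨z1, hz1⟩ := hint1 (x 0) hx.1
    obtain ⟨z2, hz2⟩ := hint2 (x 1) hx.2
    refine ⟨z1 * z2, ?_⟩
    push_cast
    rw [← hz1, ← hz2, pow_add]
    ring
  · intro x
    have e1 : cf ut (x 0) * cf vt (x 1) - cf u (x 0) * cf v (x 1) =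
        (cf ut (x 0) - cf u (x 0)) * (cf v (x 1) + (cf vt (x 1) - cf v (x 1))) +
          cf u (x 0) * (cf vt (x 1) - cf v (x 1)) := by ring
    have b1 : |cf ut (x 0) - cf u (x 0)| ≤ η := hn1 _
    have b2 : |cf vt (x 1) - cf v (x 1)| ≤ η := hn2 _
    have b3 : |cf u (x 0)| ≤ Au := hAu _
    have b4 : |cf v (x 1)| ≤ Av := hAv _
    show |cf ut (x 0) * cf vt (x 1) - cf u (x 0) * cf v (x 1)| ≤ ε
    rw [e1]
    refine (abs_add_le _ _).trans ?_
    rw [abs_mul, abs_mul]
    have b5 : |cf v (x 1) + (cf vt (x 1) - cf v (x 1))| ≤ Av + 1 :=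
      (abs_add_le _ _).trans (by linarith)
    have b6 : |cf ut (x 0) - cf u (x 0)| * |cf v (x 1) + (cf vt (x 1) - cf v (x 1))| ≤
        η * (Av + 1) := mul_le_mul b1 b5 (abs_nonneg _) hηpos.le
    have b7 : |cf u (x 0)| * |cf vt (x 1) - cf v (x 1)| ≤ Au * η :=
      mul_le_mul b3 b2 (abs_nonneg _) hAu0
    have b8 : η * (Av + 1 + Au) ≤ η * M := by
      apply mul_le_mul_of_nonneg_left _ hηpos.le
      rw [hM]
      linarith
    nlinarith
  · -- Fourier coefficients
    set a : ℤ → ℝ := fun n => ‖fone (fun x => ut x - u x) n‖ ^ 2 * w n with ha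
    set b : ℤ → ℝ := fun n => ‖fone vt n‖ ^ 2 * w n with hb
    set c : ℤ → ℝ := fun n => ‖fone u n‖ ^ 2 * w n with hc
    set d : ℤ → ℝ := fun n => ‖fone (fun x => vt x - v x) n‖ ^ 2 * w n with hd
    have ha0 : ∀ n, 0 ≤ a n := fun n => mul_nonneg (sq_nonneg _) (hw0 n)
    have hb0 : ∀ n, 0 ≤ b n := fun n => mul_nonneg (sq_nonneg _) (hw0 n)
    have hc0 : ∀ n, 0 ≤ c n := fun n => mul_nonneg (sq_nonneg _) (hw0 n)
    have hd0 : ∀ n, 0 ≤ d n := fun n => mul_nonneg (sq_nonneg _) (hw0 n)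
    have hble : ∀ n, b n ≤ 2 * (‖fone v n‖ ^ 2 * w n) + 2 * d n := by
      intro n
      have e1 : fone vt n = fone v n + fone (fun x => vt x - v x) n := by
        rw [fone_sub hvt hv hvtd.continuous hvd.continuous]
        ring
      have e2 : ‖fone vt n‖ ^ 2 ≤ 2 * ‖fone v n‖ ^ 2 + 2 * ‖fone (fun x => vt x - v x) n‖ ^ 2 := by
        rw [e1]
        have h1 := norm_add_le (fone v n) (fone (fun x => vt x - v x) n)
        have h2 := norm_nonneg (fone v n + fone (fun x => vt x - v x) n)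
        nlinarith [sq_nonneg (‖fone v n‖ - ‖fone (fun x => vt x - v x) n‖)]
      calc b n = ‖fone vt n‖ ^ 2 * w n := rfl
        _ ≤ (2 * ‖fone v n‖ ^ 2 + 2 * ‖fone (fun x => vt x - v x) n‖ ^ 2) * w n :=
            mul_le_mul_of_nonneg_right e2 (hw0 n)
        _ = 2 * (‖fone v n‖ ^ 2 * w n) + 2 * d n := by
            simp only [hd]
            ring
    have hbs' : Summable fun n => 2 * (‖fone v n‖ ^ 2 * w n) + 2 * d n :=
      (hsv.mul_left 2).add (hs2.mul_left 2)
    have hbs : Summable b := Summable.of_nonneg_of_le hb0 hble hbs'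
    have hbt : ∑' n, b n ≤ 2 * Nv + 2 * η := by
      refine (hbs.tsum_le_tsum hble hbs').trans ?_
      rw [(hsv.mul_left 2).tsum_add (hs2.mul_left 2), tsum_mul_left, tsum_mul_left]
      have h1 : ∑' n, d n ≤ η := hl2
      linarith
    have s1 := hasSum_two ha0 hb0 hs1 hbs
    have s2 := hasSum_two hc0 hd0 hsu hs2
    have s3 := (s1.mul_left 2).add (s2.mul_left 2)
    have hfc : ∀ h : Fin 2 → ℤ,
        fc (d := 2) (fun x => cf ut (x 0) * cf vt (x 1) - cf u (x 0) * cf v (x 1)) h =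
        fone (fun x => ut x - u x) (h 0) * fone vt (h 1) +
          fone u (h 0) * fone (fun x => vt x - v x) (h 1) := by
      intro h
      have key := fc_tensor (Finset.univ : Finset (Fin 2)) (fun _ => 1) U V hUc hVc hUper hVper h
      have e1 : (fun x : Tor 2 => ∑ b ∈ (Finset.univ : Finset (Fin 2)),
          (fun _ => (1 : ℝ)) b * cf (U b) (x 0) * cf (V b) (x 1)) =
          fun x => cf ut (x 0) * cf vt (x 1) - cf u (x 0) * cf v (x 1) := by
        funext x
        rw [Fin.sum_univ_two]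
        have f0 : cf (U 0) (x 0) = cf ut (x 0) - cf u (x 0) := rfl
        have f1 : cf (U 1) (x 0) = cf u (x 0) := rfl
        have g0 : cf (V 0) (x 1) = cf vt (x 1) := rfl
        have g1 : cf (V 1) (x 1) = cf vt (x 1) - cf v (x 1) := rfl
        rw [f0, f1, g0, g1]
        ring
      rw [e1] at key
      rw [key, Fin.sum_univ_two]
      have f0 : U 0 = fun x => ut x - u x := rfl
      have f1 : U 1 = u := rfl
      have g0 : V 0 = vt := rfl
      have g1 : V 1 = fun x => vt x - v x := rfl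
      rw [f0, f1, g0, g1]
      push_cast
      ring
    have hwt : ∀ h : Fin 2 → ℤ, wt k h = w (h 0) * w (h 1) := by
      intro h
      unfold wt
      rw [Fin.prod_univ_two]
    have hterm : ∀ h : Fin 2 → ℤ,
        ‖fc (d := 2) (fun x => cf ut (x 0) * cf vt (x 1) - cf u (x 0) * cf v (x 1)) h‖ ^ 2 *
          wt k h ≤ 2 * (a (h 0) * b (h 1)) + 2 * (c (h 0) * d (h 1)) := by
      intro h
      rw [hfc, hwt]
      set p := fone (fun x => ut x - u x) (h 0) * fone vt (h 1) with hp
      set q := fone u (h 0) * fone (fun x => vt x - v x) (h 1) with hq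
      have e2 : ‖p + q‖ ^ 2 ≤ 2 * ‖p‖ ^ 2 + 2 * ‖q‖ ^ 2 := by
        have h1 := norm_add_le p q
        have h2 := norm_nonneg (p + q)
        nlinarith [sq_nonneg (‖p‖ - ‖q‖)]
      have hww : 0 ≤ w (h 0) * w (h 1) := mul_nonneg (hw0 _) (hw0 _)
      calc ‖p + q‖ ^ 2 * (w (h 0) * w (h 1))
          ≤ (2 * ‖p‖ ^ 2 + 2 * ‖q‖ ^ 2) * (w (h 0) * w (h 1)) :=
            mul_le_mul_of_nonneg_right e2 hww
        _ = 2 * (a (h 0) * b (h 1)) + 2 * (c (h 0) * d (h 1)) := by
            rw [hp, hq, norm_mul, norm_mul]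
            simp only [ha, hb, hc, hd]
            ring
    have hwt0 : ∀ h : Fin 2 → ℤ, 0 ≤ wt k h := fun h => by
      rw [hwt]
      exact mul_nonneg (hw0 _) (hw0 _)
    have hsumm : Summable fun h : Fin 2 → ℤ =>
        ‖fc (d := 2) (fun x => cf ut (x 0) * cf vt (x 1) - cf u (x 0) * cf v (x 1)) h‖ ^ 2 *
          wt k h :=
      Summable.of_nonneg_of_le (fun h => mul_nonneg (sq_nonneg _) (hwt0 h)) hterm s3.summable
    refine ⟨hsumm, (hsumm.tsum_le_tsum hterm s3.summable).trans ?_⟩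
    rw [s3.tsum_eq]
    have t1 : (∑' n, a n) ≤ η := hl1
    have t2 : (∑' n, d n) ≤ η := hl2
    have t10 : 0 ≤ ∑' n, a n := tsum_nonneg ha0
    have t20 : 0 ≤ ∑' n, b n := tsum_nonneg hb0
    have t30 : (∑' n, a n) * (∑' n, b n) ≤ η * (2 * Nv + 2 * η) :=
      mul_le_mul t1 hbt t20 hηpos.le
    have t40 : (∑' n, c n) * (∑' n, d n) ≤ Nu * η := mul_le_mul_of_nonneg_left t2 hNu0
    have t50 : η * (4 * Nv + 4 + 2 * Nu) ≤ η * M := by
      apply mul_le_mul_of_nonneg_left _ hηpos.le
      rw [hM]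
      linarith
    nlinarith

end

end Pool.Agent.W347.RN.Quant
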