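import Pool.Agent.W691.Ran.Defs

/-! Subtask RN-TENT of helper691 (MP_2e2259_an): a finitely supported prior on `ℤ^I` which is robust
under shifts. -/

set_option autoImplicit false

namespace Pool.Agent.W347.RN.Tent

open Pool.Agent.W691.Ran
open scoped ENNReal

noncomputable section

/-- The tent. -/
def T (L : ℕ) (j : ℤ) : ℝ := max 0 (1 - |(j : ℝ)| / L)

theorem T_nonneg (L : ℕ) (j : ℤ) : 0 ≤ T L j := le_max_left _ _

theorem T_eq_zero {L : ℕ} (hL : 0 < L) {j : ℤ} (hj : ¬ (-(L : ℤ) ≤ j ∧ j < L)) : T L j = 0 := by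
  have hL' : (0 : ℝ) < L := by exact_mod_cast hL
  unfold T
  apply max_eq_left
  have h1 : (L : ℤ) ≤ |j| := by
    by_contra hcon
    push Not at hcon
    rw [abs_lt] at hcon
    exact hj ⟨hcon.1.le, hcon.2⟩
  have h2 : (L : ℝ) ≤ |(j : ℝ)| := by exact_mod_cast h1
  rw [sub_nonpos, le_div_iff₀ hL', one_mul]
  exact h2

theorem T_lip {L : ℕ} (hL : 0 < L) (i j : ℤ) : |T L i - T L j| ≤ |((i - j : ℤ) : ℝ)| / L := by
  have hL' : (0 : ℝ) < L := by exact_mod_cast hL
  unfold T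
  rw [max_comm 0, max_comm 0]
  refine (abs_max_sub_max_le_abs (1 - |(i : ℝ)| / L) (1 - |(j : ℝ)| / L) 0).trans ?_
  have h1 : (1 - |(i : ℝ)| / L) - (1 - |(j : ℝ)| / L) = (|(j : ℝ)| - |(i : ℝ)|) / L := by ring
  rw [h1, abs_div, abs_of_pos hL']
  refine div_le_div_of_nonneg_right ?_ hL'.le
  push_cast
  rw [abs_sub_comm (i : ℝ) j]
  exact abs_abs_sub_abs_le_abs_sub _ _

/-- Sum of the squares. -/
def N2 (L : ℕ) : ℝ := ∑ j ∈ Finset.Ico (-(L : ℤ)) L, T L j ^ 2

theorem N2_ge {L : ℕ} (hL : 0 < L) : (L : ℝ) / 2 ≤ N2 L := by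
  have hL' : (0 : ℝ) < L := by exact_mod_cast hL
  have h1 : N2 L = ∑ i ∈ Finset.range L, (T L (i : ℤ) ^ 2 + T L ((i : ℤ) - L) ^ 2) := by
    rw [Finset.sum_add_distrib]
    unfold N2
    rw [← Finset.Ico_union_Ico_eq_Ico (show -(L : ℤ) ≤ 0 by omega) (show (0 : ℤ) ≤ L by omega),
      Finset.sum_union (Finset.Ico_disjoint_Ico_consecutive _ _ _), add_comm]
    congr 1
    · refine Finset.sum_nbij' (fun j => j.toNat) (fun i => (i : ℤ)) ?_ ?_ ?_ ?_ ?_
      · intro j hj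
        rw [Finset.mem_Ico] at hj
        rw [Finset.mem_range]
        omega
      · intro i hi
        rw [Finset.mem_range] at hi
        rw [Finset.mem_Ico]
        omega
      · intro j hj
        rw [Finset.mem_Ico] at hj
        exact Int.toNat_of_nonneg hj.1
      · intro i _
        exact Int.toNat_natCast i
      · intro j hj
        rw [Finset.mem_Ico] at hj
        rw [Int.toNat_of_nonneg hj.1]
    · refine Finset.sum_nbij' (fun j => (j + L).toNat) (fun i => (i : ℤ) - L) ?_ ?_ ?_ ?_ ?_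
      · intro j hj
        rw [Finset.mem_Ico] at hj
        rw [Finset.mem_range]
        omega
      · intro i hi
        rw [Finset.mem_range] at hi
        rw [Finset.mem_Ico]
        omega
      · intro j hj
        rw [Finset.mem_Ico] at hj
        rw [Int.toNat_of_nonneg (by omega)]
        ring
      · intro i _
        rw [sub_add_cancel]
        exact Int.toNat_natCast i
      · intro j hj
        rw [Finset.mem_Ico] at hj
        rw [Int.toNat_of_nonneg (by omega)]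
        congr 2
        ring
  rw [h1]
  have h2 : (L : ℝ) / 2 = ∑ _i ∈ Finset.range L, (1 / 2 : ℝ) := by
    rw [Finset.sum_const, Finset.card_range, nsmul_eq_mul]
    ring
  rw [h2]
  refine Finset.sum_le_sum fun i hi => ?_
  rw [Finset.mem_range] at hi
  have hi' : (i : ℝ) < L := by exact_mod_cast hi
  have hi0 : (0 : ℝ) ≤ i := Nat.cast_nonneg i
  have e1 : 1 - (i : ℝ) / L ≤ T L (i : ℤ) := by
    unfold T
    refine le_trans (le_of_eq ?_) (le_max_right _ _)
    rw [Int.cast_natCast, abs_of_nonneg hi0]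
  have e2 : (i : ℝ) / L ≤ T L ((i : ℤ) - L) := by
    unfold T
    refine le_trans (le_of_eq ?_) (le_max_right _ _)
    push_cast
    rw [abs_of_nonpos (by linarith)]
    field_simp
    ring
  have e3 : 0 ≤ (i : ℝ) / L := by positivity
  have e4 : 0 ≤ 1 - (i : ℝ) / L := by
    rw [sub_nonneg, div_le_one hL']
    exact hi'.le
  have e5 : (1 - (i : ℝ) / L) ^ 2 ≤ T L (i : ℤ) ^ 2 := pow_le_pow_left₀ e4 e1 2
  have e6 : ((i : ℝ) / L) ^ 2 ≤ T L ((i : ℤ) - L) ^ 2 := pow_le_pow_left₀ e3 e2 2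
  nlinarith [sq_nonneg ((i : ℝ) / L - 1 / 2)]

/-- The normalised tent. -/
def s (L : ℕ) (j : ℤ) : ℝ := T L j / Real.sqrt (N2 L)

theorem N2_pos {L : ℕ} (hL : 0 < L) : 0 < N2 L := by
  have hL' : (0 : ℝ) < L := by exact_mod_cast hL
  have := N2_ge hL
  linarith

theorem s_nonneg {L : ℕ} (j : ℤ) : 0 ≤ s L j := div_nonneg (T_nonneg L j) (Real.sqrt_nonneg _)

theorem s_eq_zero {L : ℕ} (hL : 0 < L) {j : ℤ} (hj : ¬ (-(L : ℤ) ≤ j ∧ j < L)) : s L j = 0 := by
  unfold s
  rw [T_eq_zero hL hj, zero_div]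

theorem s_sum {L : ℕ} (hL : 0 < L) : ∑ j ∈ Finset.Ico (-(L : ℤ)) L, s L j ^ 2 = 1 := by
  have h := N2_pos hL
  unfold s
  simp_rw [div_pow, Real.sq_sqrt h.le]
  rw [← Finset.sum_div]
  exact div_self h.ne'

theorem s_sum' {L : ℕ} (hL : 0 < L) : ∑ j ∈ Finset.Icc (-(L : ℤ)) L, s L j ^ 2 = 1 := by
  rw [← s_sum hL]
  symm
  apply Finset.sum_subset
  · intro j hj
    rw [Finset.mem_Ico] at hj
    rw [Finset.mem_Icc]
    omega
  · intro j _ hj
    rw [Finset.mem_Ico] at hj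
    rw [s_eq_zero hL hj]
    norm_num

theorem overlap {L : ℕ} (hL : 0 < L) (t : ℤ) :
    1 - 4 * ((t : ℝ) / L) ^ 2 ≤ ∑ j ∈ Finset.Icc (-(L : ℤ)) L, s L j * s L (j + t) := by
  have hL' : (0 : ℝ) < L := by exact_mod_cast hL
  have hN := N2_pos hL
  set S : Finset ℤ := Finset.Ico (-(L : ℤ)) L with hS
  set S' : Finset ℤ := Finset.Ico (-(L : ℤ) - t) (L - t) with hS'
  set K : Finset ℤ := S ∪ S' with hK
  have hcard : (K.card : ℝ) ≤ 4 * L := by
    have h1 : K.card ≤ S.card + S'.card := Finset.card_union_le _ _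
    have h2 : S.card = 2 * L := by
      rw [hS, Int.card_Ico]
      omega
    have h3 : S'.card = 2 * L := by
      rw [hS', Int.card_Ico]
      omega
    have h4 : K.card ≤ 4 * L := by omega
    exact_mod_cast h4
  have e1 : ∑ j ∈ K, s L j ^ 2 = 1 := by
    rw [← s_sum hL]
    symm
    apply Finset.sum_subset Finset.subset_union_left
    intro j _ hj
    rw [Finset.mem_Ico] at hj
    rw [s_eq_zero hL hj]
    norm_num
  have e2 : ∑ j ∈ K, s L (j + t) ^ 2 = 1 := by
    have h1 : ∑ j ∈ S', s L (j + t) ^ 2 = ∑ j ∈ S, s L j ^ 2 := by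
      refine Finset.sum_nbij' (fun j => j + t) (fun j => j - t) ?_ ?_ ?_ ?_ ?_
      · intro j hj
        rw [hS', Finset.mem_Ico] at hj
        rw [hS, Finset.mem_Ico]
        omega
      · intro j hj
        rw [hS, Finset.mem_Ico] at hj
        rw [hS', Finset.mem_Ico]
        omega
      · intro j _
        ring
      · intro j _
        ring
      · intro j _
        rfl
    rw [← s_sum hL, ← hS, ← h1]
    symm
    apply Finset.sum_subset Finset.subset_union_right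
    intro j _ hj
    rw [hS', Finset.mem_Ico] at hj
    rw [s_eq_zero hL (by omega)]
    norm_num
  have e3 : ∑ j ∈ Finset.Icc (-(L : ℤ)) L, s L j * s L (j + t) = ∑ j ∈ K, s L j * s L (j + t) := by
    have h1 : ∑ j ∈ S, s L j * s L (j + t) = ∑ j ∈ K, s L j * s L (j + t) := by
      apply Finset.sum_subset Finset.subset_union_left
      intro j _ hj
      rw [hS, Finset.mem_Ico] at hj
      rw [s_eq_zero hL hj, zero_mul]
    rw [← h1]
    symm
    apply Finset.sum_subset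
    · intro j hj
      rw [hS, Finset.mem_Ico] at hj
      rw [Finset.mem_Icc]
      omega
    · intro j _ hj
      rw [hS, Finset.mem_Ico] at hj
      rw [s_eq_zero hL hj, zero_mul]
  have e4 : ∑ j ∈ K, (s L j - s L (j + t)) ^ 2 ≤ 8 * ((t : ℝ) / L) ^ 2 := by
    have hterm : ∀ j ∈ K, (s L j - s L (j + t)) ^ 2 ≤ ((t : ℝ) / L) ^ 2 / N2 L := by
      intro j _
      unfold s
      rw [← sub_div, div_pow, Real.sq_sqrt hN.le]
      refine div_le_div_of_nonneg_right ?_ hN.le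
      rw [← sq_abs, ← sq_abs ((t : ℝ) / L)]
      refine pow_le_pow_left₀ (abs_nonneg _) ?_ 2
      refine (T_lip hL j (j + t)).trans (le_of_eq ?_)
      rw [abs_div, abs_of_pos hL']
      congr 1
      push_cast
      rw [show (j : ℝ) - (j + t) = -t by ring, abs_neg]
    refine (Finset.sum_le_sum hterm).trans ?_
    rw [Finset.sum_const, nsmul_eq_mul]
    have h5 : ((t : ℝ) / L) ^ 2 / N2 L ≤ ((t : ℝ) / L) ^ 2 / (L / 2) := by
      apply div_le_div_of_nonneg_left (by positivity) (by positivity) (N2_ge hL)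
    calc (K.card : ℝ) * (((t : ℝ) / L) ^ 2 / N2 L) ≤ (4 * L) * (((t : ℝ) / L) ^ 2 / (L / 2)) := by
          apply mul_le_mul hcard h5 (by positivity) (by positivity)
      _ = 8 * ((t : ℝ) / L) ^ 2 := by
          field_simp
          ring
  rw [e3]
  have e5 : ∑ j ∈ K, s L j * s L (j + t) =
      (∑ j ∈ K, s L j ^ 2 + ∑ j ∈ K, s L (j + t) ^ 2 - ∑ j ∈ K, (s L j - s L (j + t)) ^ 2) / 2 := by
    rw [← Finset.sum_add_distrib, ← Finset.sum_sub_distrib, Finset.sum_div]
    refine Finset.sum_congr rfl fun j _ => ?_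
    ring
  rw [e5, e1, e2]
  linarith

theorem one_sub_sum_le_prod {I : Type} [DecidableEq I] (A : Finset I) (a b : I → ℝ)
    (h0 : ∀ i ∈ A, 0 ≤ a i) (h1 : ∑ i ∈ A, a i ≤ 1) (hb : ∀ i ∈ A, 1 - a i ≤ b i) :
    1 - ∑ i ∈ A, a i ≤ ∏ i ∈ A, b i := by
  induction A using Finset.induction_on with
  | empty => simp
  | insert i A hi ih =>
    rw [Finset.sum_insert hi] at h1 ⊢
    rw [Finset.prod_insert hi]
    have hai := h0 i (Finset.mem_insert_self _ _)
    have hs : 0 ≤ ∑ j ∈ A, a j := Finset.sum_nonneg fun j hj => h0 j (Finset.mem_insert_of_mem hj)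
    have ih' := ih (fun j hj => h0 j (Finset.mem_insert_of_mem hj)) (by linarith)
      (fun j hj => hb j (Finset.mem_insert_of_mem hj))
    have hbi := hb i (Finset.mem_insert_self _ _)
    calc 1 - (a i + ∑ j ∈ A, a j) ≤ (1 - a i) * (1 - ∑ j ∈ A, a j) := by nlinarith
      _ ≤ b i * ∏ j ∈ A, b j := by
          apply mul_le_mul hbi ih' (by linarith) (by linarith)

variable {I : Type} [Fintype I] [DecidableEq I]

/-- Product of the tents. -/
def u (L : ℕ) (x : I → ℤ) : ℝ := ∏ q, s L (x q)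

theorem u_nonneg {L : ℕ} (x : I → ℤ) : 0 ≤ u L x := Finset.prod_nonneg fun _ _ => s_nonneg _

theorem u_eq_zero {L : ℕ} (hL : 0 < L) {x : I → ℤ} (hx : x ∉ box I L) : u L x = 0 := by
  unfold box at hx
  rw [Fintype.mem_piFinset] at hx
  push Not at hx
  obtain ⟨q, hq⟩ := hx
  rw [Finset.mem_Icc] at hq
  exact Finset.prod_eq_zero (Finset.mem_univ q) (s_eq_zero hL (by omega))

theorem shift_sum_ennreal {L : ℕ} (τ : I → ℤ) (f : (I → ℤ) → ℝ≥0∞)
    (hf : ∀ x, x ∉ box I L → f x = 0) :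
    ∑ x ∈ box I L, f (x + τ) ≤ ∑ x ∈ box I L, f x := by
  have h1 : ∑ x ∈ box I L, f (x + τ) = ∑ y ∈ (box I L).map (addRightEmbedding τ), f y := by
    rw [Finset.sum_map]
    rfl
  rw [h1]
  apply Finset.sum_le_sum_of_ne_zero
  intro y _ hy
  by_contra hcon
  exact hy (hf y hcon)

theorem shift_sum_real {L : ℕ} (τ : I → ℤ) (f : (I → ℤ) → ℝ) (hf0 : ∀ x, 0 ≤ f x)
    (hf : ∀ x, x ∉ box I L → f x = 0) :
    ∑ x ∈ box I L, f (x + τ) ≤ ∑ x ∈ box I L, f x := by
  have h1 := shift_sum_ennreal (L := L) τ (fun x => ENNReal.ofReal (f x))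
    (fun x hx => by rw [hf x hx, ENNReal.ofReal_zero])
  rw [← ENNReal.ofReal_sum_of_nonneg fun x _ => hf0 _,
    ← ENNReal.ofReal_sum_of_nonneg fun x _ => hf0 _] at h1
  exact (ENNReal.ofReal_le_ofReal_iff (Finset.sum_nonneg fun x _ => hf0 x)).mp h1

theorem sum_sq {L : ℕ} (hL : 0 < L) : ∑ x ∈ box I L, u L x ^ 2 = 1 := by
  unfold u box
  simp_rw [← Finset.prod_pow]
  have := Finset.prod_univ_sum (fun _ : I => Finset.Icc (-(L : ℤ)) L) (fun _ j => s L j ^ 2)
  rw [← this]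
  simp_rw [s_sum' hL]
  simp

theorem sum_mul {L : ℕ} (hL : 0 < L) (τ : I → ℤ) (hτ : ∑ q, ((τ q : ℝ) / L) ^ 2 ≤ 1 / 12) :
    2 / 3 ≤ ∑ x ∈ box I L, u L x * u L (x + τ) := by
  have h1 : ∑ x ∈ box I L, u L x * u L (x + τ) =
      ∏ q, ∑ j ∈ Finset.Icc (-(L : ℤ)) L, s L j * s L (j + τ q) := by
    unfold u box
    rw [Finset.prod_univ_sum]
    refine Finset.sum_congr rfl fun x _ => ?_
    rw [← Finset.prod_mul_distrib]
    rfl
  rw [h1]
  have h2 := one_sub_sum_le_prod (Finset.univ : Finset I) (fun q => 4 * ((τ q : ℝ) / L) ^ 2)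
    (fun q => ∑ j ∈ Finset.Icc (-(L : ℤ)) L, s L j * s L (j + τ q))
    (fun q _ => by positivity) (by rw [← Finset.mul_sum]; linarith)
    (fun q _ => overlap hL (τ q))
  rw [← Finset.mul_sum] at h2
  linarith

theorem sum_min {L : ℕ} (hL : 0 < L) (τ : I → ℤ) (hτ : ∑ q, ((τ q : ℝ) / L) ^ 2 ≤ 1 / 12) :
    1 / 8 ≤ ∑ x ∈ box I L, (min (u L x) (u L (x + τ))) ^ 2 := by
  have h1 := Finset.sum_mul_sq_le_sq_mul_sq (box I L) (fun x => min (u L x) (u L (x + τ)))
    (fun x => max (u L x) (u L (x + τ)))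
  have h2 : ∑ x ∈ box I L, min (u L x) (u L (x + τ)) * max (u L x) (u L (x + τ)) =
      ∑ x ∈ box I L, u L x * u L (x + τ) :=
    Finset.sum_congr rfl fun x _ => min_mul_max _ _
  rw [h2] at h1
  have h3 : ∑ x ∈ box I L, (max (u L x) (u L (x + τ))) ^ 2 ≤ 2 := by
    calc ∑ x ∈ box I L, (max (u L x) (u L (x + τ))) ^ 2
        ≤ ∑ x ∈ box I L, (u L x ^ 2 + u L (x + τ) ^ 2) := by
          refine Finset.sum_le_sum fun x _ => ?_
          rcases max_cases (u L x) (u L (x + τ)) with h | h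
          · rw [h.1]
            have := sq_nonneg (u L (x + τ))
            linarith
          · rw [h.1]
            have := sq_nonneg (u L x)
            linarith
      _ = ∑ x ∈ box I L, u L x ^ 2 + ∑ x ∈ box I L, u L (x + τ) ^ 2 := Finset.sum_add_distrib
      _ ≤ 1 + 1 := by
          refine add_le_add (sum_sq hL).le ?_
          refine le_trans (shift_sum_real (L := L) τ (fun x => u L x ^ 2) (fun x => sq_nonneg _)
            (fun x hx => by rw [u_eq_zero hL hx]; norm_num)) (sum_sq hL).le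
      _ = 2 := by norm_num
  have h4 := sum_mul hL τ hτ
  have h5 : (2 / 3 : ℝ) ^ 2 ≤ (∑ x ∈ box I L, u L x * u L (x + τ)) ^ 2 :=
    pow_le_pow_left₀ (by norm_num) h4 2
  have h6 : 0 ≤ ∑ x ∈ box I L, (min (u L x) (u L (x + τ))) ^ 2 :=
    Finset.sum_nonneg fun _ _ => sq_nonneg _
  nlinarith

theorem tent : S_TENT := by
  intro I _ _ L hL
  refine ⟨fun x => u L x ^ 2, fun x => sq_nonneg _, sum_sq hL, ?_⟩
  intro τ hτ F B hB
  have h1 : ∑ x ∈ box I L, ENNReal.ofReal (u L (x + τ) ^ 2) * F (x + τ) ≤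
      ∑ x ∈ box I L, ENNReal.ofReal (u L x ^ 2) * F x :=
    shift_sum_ennreal (L := L) τ (fun x => ENNReal.ofReal (u L x ^ 2) * F x)
      (fun x hx => by
        rw [u_eq_zero hL hx]
        norm_num)
  have h2 : ∑ x ∈ box I L, ENNReal.ofReal ((min (u L x) (u L (x + τ))) ^ 2) * B ≤
      2 * ∑ x ∈ box I L, ENNReal.ofReal (u L x ^ 2) * F x := by
    calc ∑ x ∈ box I L, ENNReal.ofReal ((min (u L x) (u L (x + τ))) ^ 2) * B
        ≤ ∑ x ∈ box I L, (ENNReal.ofReal (u L x ^ 2) * F x +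
            ENNReal.ofReal (u L (x + τ) ^ 2) * F (x + τ)) := by
          refine Finset.sum_le_sum fun x _ => ?_
          refine (mul_le_mul_right (hB x) _).trans ?_
          rw [mul_add]
          have hmin : 0 ≤ min (u L x) (u L (x + τ)) := le_min (u_nonneg _) (u_nonneg _)
          refine add_le_add (mul_le_mul_left (ENNReal.ofReal_le_ofReal ?_) _)
            (mul_le_mul_left (ENNReal.ofReal_le_ofReal ?_) _)
          · exact pow_le_pow_left₀ hmin (min_le_left _ _) 2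
          · exact pow_le_pow_left₀ hmin (min_le_right _ _) 2
      _ = ∑ x ∈ box I L, ENNReal.ofReal (u L x ^ 2) * F x +
            ∑ x ∈ box I L, ENNReal.ofReal (u L (x + τ) ^ 2) * F (x + τ) := Finset.sum_add_distrib
      _ ≤ ∑ x ∈ box I L, ENNReal.ofReal (u L x ^ 2) * F x +
            ∑ x ∈ box I L, ENNReal.ofReal (u L x ^ 2) * F x := add_le_add le_rfl h1
      _ = 2 * ∑ x ∈ box I L, ENNReal.ofReal (u L x ^ 2) * F x := (two_mul _).symm
  rw [← Finset.sum_mul, ← ENNReal.ofReal_sum_of_nonneg fun x _ => sq_nonneg _] at h2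
  have h3 : ENNReal.ofReal (1 / 8) ≤
      ENNReal.ofReal (∑ x ∈ box I L, (min (u L x) (u L (x + τ))) ^ 2) :=
    ENNReal.ofReal_le_ofReal (sum_min hL τ hτ)
  have h4 : (8 : ℝ≥0∞) * ENNReal.ofReal (1 / 8) = 1 := by
    rw [show (8 : ℝ≥0∞) = ENNReal.ofReal 8 by norm_num, ← ENNReal.ofReal_mul (by norm_num)]
    norm_num
  calc B = 8 * ENNReal.ofReal (1 / 8) * B := by rw [h4, one_mul]
    _ = 8 * (ENNReal.ofReal (1 / 8) * B) := by rw [mul_assoc]
    _ ≤ 8 * (ENNReal.ofReal (∑ x ∈ box I L, (min (u L x) (u L (x + τ))) ^ 2) * B) := by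
        gcongr
    _ ≤ 8 * (2 * ∑ x ∈ box I L, ENNReal.ofReal (u L x ^ 2) * F x) := by gcongr
    _ = 16 * ∑ x ∈ box I L, ENNReal.ofReal (u L x ^ 2) * F x := by
        rw [← mul_assoc]
        norm_num

end

end Pool.Agent.W347.RN.Tent
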