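import Pool.Agent.W691.Ran.Defs

/-! Subtask RN-QUANT of helper691 (MP_2e2259_an), part 1: the smooth staircase and the choice of the
shift. -/

set_option autoImplicit false

namespace Pool.Agent.W347.RN.Quant

open Pool.Agent.W691.Ran Pool.Agent.Helper150.Iid MeasureTheory
open scoped ENNReal ContDiff

noncomputable section

/-- The smooth staircase. -/
def st (δ y : ℝ) : ℝ := (⌊y⌋ : ℝ) - 1 + Real.smoothTransition (Int.fract y / δ)

theorem st_local {δ : ℝ} (hδ : 0 < δ) (m : ℤ) {y : ℝ} (h1 : (m : ℝ) - 1 + δ < y)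
    (h2 : y < m + 1) : st δ y = m - 1 + Real.smoothTransition ((y - m) / δ) := by
  unfold st
  rcases le_or_gt (m : ℝ) y with hm | hm
  · have hf : ⌊y⌋ = m := Int.floor_eq_iff.mpr ⟨hm, h2⟩
    have : Int.fract y = y - m := by
      unfold Int.fract
      rw [hf]
    rw [this, hf]
  · have hf : ⌊y⌋ = m - 1 := by
      rw [Int.floor_eq_iff]
      push_cast
      constructor <;> linarith
    have hfr : Int.fract y = y - m + 1 := by
      unfold Int.fract
      rw [hf]
      push_cast
      ring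
    rw [hfr, hf]
    rw [Real.smoothTransition.one_of_one_le (by rw [le_div_iff₀ hδ]; linarith),
      Real.smoothTransition.zero_of_nonpos (by
        apply div_nonpos_of_nonpos_of_nonneg <;> linarith)]
    push_cast
    ring

theorem st_event {δ : ℝ} (hδ : 0 < δ) (hδ1 : δ < 1) (y : ℝ) :
    st δ =ᶠ[nhds y] fun z => (⌊y⌋ : ℝ) - 1 + Real.smoothTransition ((z - ⌊y⌋) / δ) := by
  have hU : Set.Ioo ((⌊y⌋ : ℝ) - 1 + δ) (⌊y⌋ + 1) ∈ nhds y := by
    apply Ioo_mem_nhds
    · have := Int.floor_le y
      linarith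
    · exact Int.lt_floor_add_one y
  filter_upwards [hU] with z hz
  exact st_local hδ ⌊y⌋ hz.1 hz.2

theorem st_contDiff {δ : ℝ} (hδ : 0 < δ) (hδ1 : δ < 1) : ContDiff ℝ ∞ (st δ) := by
  rw [contDiff_iff_contDiffAt]
  intro y
  refine ContDiffAt.congr_of_eventuallyEq ?_ (st_event hδ hδ1 y)
  have h1 : ContDiff ℝ ∞ fun z : ℝ => (z - (⌊y⌋ : ℝ)) / δ :=
    (contDiff_id.sub contDiff_const).div_const δ
  have h2 : ContDiff ℝ ∞ fun z : ℝ => Real.smoothTransition ((z - (⌊y⌋ : ℝ)) / δ) :=
    Real.smoothTransition.contDiff.comp h1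
  exact (contDiff_const.add h2).contDiffAt

theorem smooth_deriv_bound : ∃ C : ℝ, 0 ≤ C ∧ ∀ x, |deriv Real.smoothTransition x| ≤ C := by
  have hc : Continuous (deriv Real.smoothTransition) :=
    (Real.smoothTransition.contDiff (n := ⊤)).continuous_deriv (by simp)
  obtain ⟨C, hC⟩ := isCompact_Icc.exists_bound_of_continuousOn
    (s := Set.Icc (0 : ℝ) 1) hc.continuousOn
  refine ⟨max C 0, le_max_right _ _, fun x => ?_⟩
  by_cases hx : x ∈ Set.Icc (0 : ℝ) 1
  · exact (hC x hx).trans (le_max_left _ _)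
  · have hz : deriv Real.smoothTransition x = 0 := by
      rw [Set.mem_Icc, not_and_or, not_le, not_le] at hx
      rcases hx with hx | hx
      · have : Real.smoothTransition =ᶠ[nhds x] fun _ => (0 : ℝ) := by
          filter_upwards [Iio_mem_nhds hx] with z hz
          exact Real.smoothTransition.zero_of_nonpos (le_of_lt hz)
        rw [this.deriv_eq]
        simp
      · have : Real.smoothTransition =ᶠ[nhds x] fun _ => (1 : ℝ) := by
          filter_upwards [Ioi_mem_nhds hx] with z hz
          exact Real.smoothTransition.one_of_one_le (le_of_lt hz)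
        rw [this.deriv_eq]
        simp
    rw [hz, abs_zero]
    exact le_max_right _ _

theorem st_deriv {δ : ℝ} (hδ : 0 < δ) (hδ1 : δ < 1) {C : ℝ}
    (hC : ∀ x, |deriv Real.smoothTransition x| ≤ C) (y : ℝ) : |deriv (st δ) y| ≤ C / δ := by
  rw [(st_event hδ hδ1 y).deriv_eq]
  have hd : HasDerivAt Real.smoothTransition (deriv Real.smoothTransition ((y - ⌊y⌋) / δ))
      ((y - ⌊y⌋) / δ) :=
    ((Real.smoothTransition.contDiff (n := ⊤)).differentiable (by simp) _).hasDerivAt
  have h1 : HasDerivAt (fun z : ℝ => (z - (⌊y⌋ : ℝ)) / δ) (1 / δ) y :=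
    ((hasDerivAt_id y).sub_const _).div_const δ
  have h2 := (hd.comp y h1).const_add ((⌊y⌋ : ℝ) - 1)
  have h3 : deriv (fun z => (⌊y⌋ : ℝ) - 1 + Real.smoothTransition ((z - ⌊y⌋) / δ)) y =
      deriv Real.smoothTransition ((y - ⌊y⌋) / δ) * (1 / δ) := h2.deriv
  rw [h3, abs_mul, abs_of_pos (by positivity : (0 : ℝ) < 1 / δ), mul_one_div]
  exact div_le_div_of_nonneg_right (hC _) hδ.le

theorem st_near (δ y : ℝ) : |st δ y - y| ≤ 2 := by
  unfold st
  have h1 := Int.floor_le y
  have h2 := Int.lt_floor_add_one y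
  have h3 := Real.smoothTransition.nonneg (Int.fract y / δ)
  have h4 := Real.smoothTransition.le_one (Int.fract y / δ)
  rw [abs_le]
  constructor <;> linarith

theorem st_int {δ y : ℝ} (hδ : 0 < δ) (h : δ ≤ Int.fract y) : st δ y = (⌊y⌋ : ℝ) := by
  unfold st
  rw [Real.smoothTransition.one_of_one_le (by rw [le_div_iff₀ hδ]; linarith)]
  ring

theorem fract_disjoint {R : ℕ} {a : ℝ} {d : ℕ} (hd : 0 < d) (hdR : d < R)
    (h1 : Int.fract a < 1 / R) : ¬ Int.fract (a + d / R) < 1 / R := by
  have hR : (0 : ℝ) < R := by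
    have : 0 < R := by omega
    exact_mod_cast this
  have hd' : (1 : ℝ) ≤ d := by exact_mod_cast hd
  have hdR' : (d : ℝ) + 1 ≤ R := by exact_mod_cast hdR
  have hf0 := Int.fract_nonneg a
  have e1 : Int.fract (a + d / R) = Int.fract a + d / R := by
    rw [Int.fract_eq_iff]
    have e2 : (d : ℝ) / R + 1 / R ≤ 1 := by
      rw [← add_div, div_le_one hR]
      exact hdR'
    refine ⟨by positivity, by linarith, ⌊a⌋, ?_⟩
    unfold Int.fract
    ring
  rw [e1, not_lt]
  have e3 : 1 / (R : ℝ) ≤ d / R := div_le_div_of_nonneg_right hd' hR.le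
  linarith

theorem exists_shift (f : UnitAddCircle → ℝ) (hf : Continuous f) (R : ℕ) (hR : 0 < R) :
    ∃ s : ℝ, 0 ≤ s ∧ s ≤ 1 ∧
      (volume : Measure UnitAddCircle) {t | Int.fract (f t + s) < 1 / R} ≤
        ENNReal.ofReal (1 / R) := by
  have hR' : (0 : ℝ) < R := by exact_mod_cast hR
  set Z : ℕ → Set UnitAddCircle := fun i => {t | Int.fract (f t + (i : ℝ) / R) < 1 / R} with hZ
  have hmeas : ∀ i, MeasurableSet (Z i) := by
    intro i
    have h1 : Measurable fun t => Int.fract (f t + (i : ℝ) / R) :=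
      measurable_fract.comp (hf.measurable.add_const _)
    exact measurableSet_lt h1 measurable_const
  have hlt : ∀ i j, i < j → j < R → Disjoint (Z i) (Z j) := by
    intro i j hij hj
    rw [Set.disjoint_left]
    intro t ht1 ht2
    refine fract_disjoint (R := R) (a := f t + (i : ℝ) / R) (d := j - i) (by omega) (by omega)
      ht1 ?_
    have : f t + (i : ℝ) / R + ((j - i : ℕ) : ℝ) / R = f t + (j : ℝ) / R := by
      rw [Nat.cast_sub hij.le]
      ring
    rw [this]
    exact ht2
  have hdisj : Set.PairwiseDisjoint (↑(Finset.range R) : Set ℕ) Z := by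
    intro i hi j hj hij
    rw [Finset.coe_range, Set.mem_Iio] at hi hj
    rcases lt_or_gt_of_ne hij with h | h
    · exact hlt i j h hj
    · exact (hlt j i h hi).symm
  haveI : IsProbabilityMeasure (volume : Measure UnitAddCircle) := by
    rw [vol_circle]
    infer_instance
  have hsum : ∑ i ∈ Finset.range R, (volume : Measure UnitAddCircle).real (Z i) ≤ 1 := by
    rw [← measureReal_biUnion_finset hdisj (fun i _ => hmeas i)]
    exact measureReal_le_one
  obtain ⟨i, hi, hle⟩ : ∃ i ∈ Finset.range R,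
      (volume : Measure UnitAddCircle).real (Z i) ≤ 1 / (R : ℝ) := by
    apply Finset.exists_le_of_sum_le (by simpa using hR.ne')
    rw [Finset.sum_const, Finset.card_range, nsmul_eq_mul, mul_one_div, div_self hR'.ne']
    exact hsum
  rw [Finset.mem_range] at hi
  refine ⟨(i : ℝ) / R, by positivity, ?_, ?_⟩
  · rw [div_le_one hR']
    exact_mod_cast hi.le
  · rw [← ofReal_measureReal]
    exact ENNReal.ofReal_le_ofReal hle

end

end Pool.Agent.W347.RN.Quant
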