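import Pool.Agent.W347.RN.Quant1

/-! Subtask RN-QUANT of helper691 (MP_2e2259_an), part 2: one dimensional approximation. -/

set_option autoImplicit false

namespace Pool.Agent.W347.RN.Quant

open Pool.Agent.W691.Ran Pool.Agent.Helper150.Iid MeasureTheory
open scoped ENNReal ContDiff

noncomputable section

/-- One dimensional Parseval identity. -/
theorem parseval1 {U : ℝ → ℝ} (hU : Function.Periodic U 1) (hc : Continuous U) :
    HasSum (fun n : ℤ => ‖fone U n‖ ^ 2) (∫ t : UnitAddCircle, (cf U t) ^ 2) := by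
  have hcc : Continuous fun t : UnitAddCircle => ((cf U t : ℝ) : ℂ) :=
    Complex.continuous_ofReal.comp (cf_continuous hU hc)
  let F : C(UnitAddCircle, ℂ) := ⟨fun t => ((cf U t : ℝ) : ℂ), hcc⟩
  have key := hasSum_sq_fourierCoeff (T := (1 : ℝ))
    (ContinuousMap.toLp (E := ℂ) 2 AddCircle.haarAddCircle ℂ F)
  have h1 : ∀ n, fourierCoeff (ContinuousMap.toLp (E := ℂ) 2 AddCircle.haarAddCircle ℂ F) n =
      fone U n := by
    intro n
    rw [fourierCoeff_toLp]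
    unfold fone fourierCoeff
    rw [vol_circle]
    rfl
  simp only [h1] at key
  rw [vol_circle]
  convert key using 1
  apply integral_congr_ae
  have h2 : (ContinuousMap.toLp (E := ℂ) 2 AddCircle.haarAddCircle ℂ F) =ᵐ[AddCircle.haarAddCircle]
      F := ContinuousMap.coeFn_toLp _ F
  filter_upwards [h2] with x hx
  rw [hx]
  show cf U x ^ 2 = ‖((cf U x : ℝ) : ℂ)‖ ^ 2
  rw [Complex.norm_real, Real.norm_eq_abs, sq_abs]

instance probCircle : IsProbabilityMeasure (volume : Measure UnitAddCircle) := by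
  rw [vol_circle]
  infer_instance

theorem integral_sq_le {U : ℝ → ℝ} (hU : Function.Periodic U 1) (hc : Continuous U) {A : ℝ}
    (hA : ∀ x, |U x| ≤ A) : ∫ t : UnitAddCircle, (cf U t) ^ 2 ≤ A ^ 2 := by
  have hA0 : 0 ≤ A := (abs_nonneg _).trans (hA 0)
  have h1 : ∫ t : UnitAddCircle, (cf U t) ^ 2 ≤ ∫ _t : UnitAddCircle, A ^ 2 := by
    apply integral_mono_of_nonneg
    · exact Filter.Eventually.of_forall fun t => sq_nonneg _
    · exact integrable_const _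
    · refine Filter.Eventually.of_forall fun t => ?_
      show (cf U t) ^ 2 ≤ A ^ 2
      rw [← sq_abs]
      exact pow_le_pow_left₀ (abs_nonneg _) (hA _) 2
  refine h1.trans (le_of_eq ?_)
  simp

/-- The weighted square norm in one dimension: summability and bound. -/
theorem norm_bound {k : ℝ} (hk0 : 0 < k) (hk1 : k < 1) {U : ℝ → ℝ} (hU : Function.Periodic U 1)
    (hd : ContDiff ℝ ∞ U) {A B T : ℝ} (hA : ∀ x, |U x| ≤ A) (hB : ∀ x, |deriv U x| ≤ B)
    (hT : 1 ≤ T) :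
    (Summable fun n : ℤ => ‖fone U n‖ ^ 2 * (1 + (n : ℝ) ^ 2) ^ k) ∧
      ∑' n : ℤ, ‖fone U n‖ ^ 2 * (1 + (n : ℝ) ^ 2) ^ k ≤
        T ^ k * A ^ 2 + T ^ (k - 1) * (A ^ 2 + B ^ 2) := by
  have p1 := parseval1 hU hd.continuous
  have hcd : Continuous (deriv U) := hd.continuous_deriv (by simp)
  have p2 := parseval1 (periodic_deriv hU) hcd
  have hTk : 0 ≤ T ^ k := Real.rpow_nonneg (by linarith) _
  have hTk1 : 0 ≤ T ^ (k - 1) := Real.rpow_nonneg (by linarith) _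
  have hp : HasSum (fun n : ℤ => T ^ k * ‖fone U n‖ ^ 2 +
      T ^ (k - 1) * (‖fone U n‖ ^ 2 + ‖fone (deriv U) n‖ ^ 2))
      (T ^ k * (∫ t : UnitAddCircle, (cf U t) ^ 2) + T ^ (k - 1) *
        ((∫ t : UnitAddCircle, (cf U t) ^ 2) + ∫ t : UnitAddCircle, (cf (deriv U) t) ^ 2)) :=
    (p1.mul_left _).add ((p1.add p2).mul_left _)
  have hterm : ∀ n : ℤ, ‖fone U n‖ ^ 2 * (1 + (n : ℝ) ^ 2) ^ k ≤ T ^ k * ‖fone U n‖ ^ 2 +
      T ^ (k - 1) * (‖fone U n‖ ^ 2 + ‖fone (deriv U) n‖ ^ 2) := by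
    intro n
    have hder : (1 + (n : ℝ) ^ 2) * ‖fone U n‖ ^ 2 ≤
        ‖fone U n‖ ^ 2 + ‖fone (deriv U) n‖ ^ 2 := by
      rw [fone_deriv hU hd n, norm_mul, mul_pow]
      have h1 : ‖(2 * Real.pi * Complex.I * (n : ℂ))‖ ^ 2 = (2 * Real.pi) ^ 2 * (n : ℝ) ^ 2 := by
        rw [norm_mul, norm_mul, norm_mul, Complex.norm_I, Complex.norm_real,
          Complex.norm_intCast, Real.norm_eq_abs]
        have h2 : ‖(2 : ℂ)‖ = 2 := by simp
        rw [h2, mul_one, mul_pow, mul_pow, sq_abs, sq_abs]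
        ring
      rw [h1]
      have hpi : (1 : ℝ) ≤ (2 * Real.pi) ^ 2 := by
        have := Real.pi_gt_three
        nlinarith
      have h3 : 0 ≤ (n : ℝ) ^ 2 * ‖fone U n‖ ^ 2 := by positivity
      nlinarith
    have ha : (1 : ℝ) ≤ 1 + (n : ℝ) ^ 2 := by
      have := sq_nonneg (n : ℝ)
      linarith
    have hn0 : 0 ≤ ‖fone U n‖ ^ 2 := sq_nonneg _
    rcases le_or_gt (1 + (n : ℝ) ^ 2) T with hle | hgt
    · have h4 : (1 + (n : ℝ) ^ 2) ^ k ≤ T ^ k :=
        Real.rpow_le_rpow (by linarith) hle hk0.le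
      have h5 : 0 ≤ T ^ (k - 1) * (‖fone U n‖ ^ 2 + ‖fone (deriv U) n‖ ^ 2) := by positivity
      nlinarith [mul_le_mul_of_nonneg_left h4 hn0]
    · have h6 : (1 + (n : ℝ) ^ 2) ^ k = (1 + (n : ℝ) ^ 2) * (1 + (n : ℝ) ^ 2) ^ (k - 1) := by
        rw [Real.rpow_sub_one (by linarith)]
        field_simp
      have h7 : (1 + (n : ℝ) ^ 2) ^ (k - 1) ≤ T ^ (k - 1) :=
        Real.rpow_le_rpow_of_nonpos (by linarith) hgt.le (by linarith)
      have h8 : 0 ≤ T ^ k * ‖fone U n‖ ^ 2 := by positivity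
      calc ‖fone U n‖ ^ 2 * (1 + (n : ℝ) ^ 2) ^ k
          = ((1 + (n : ℝ) ^ 2) * ‖fone U n‖ ^ 2) * (1 + (n : ℝ) ^ 2) ^ (k - 1) := by
            rw [h6]; ring
        _ ≤ ((1 + (n : ℝ) ^ 2) * ‖fone U n‖ ^ 2) * T ^ (k - 1) := by
            gcongr
        _ ≤ (‖fone U n‖ ^ 2 + ‖fone (deriv U) n‖ ^ 2) * T ^ (k - 1) := by
            gcongr
        _ ≤ _ := by linarith
  have hs : Summable fun n : ℤ => ‖fone U n‖ ^ 2 * (1 + (n : ℝ) ^ 2) ^ k :=
    Summable.of_nonneg_of_le (fun n => by positivity) hterm hp.summable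
  refine ⟨hs, ?_⟩
  refine (hs.tsum_le_tsum hterm hp.summable).trans ?_
  rw [hp.tsum_eq]
  have i1 := integral_sq_le hU hd.continuous hA
  have i2 := integral_sq_le (periodic_deriv hU) hcd hB
  gcongr

theorem periodic_bound {U : ℝ → ℝ} (hU : Function.Periodic U 1) (hc : Continuous U) :
    ∃ A : ℝ, 0 ≤ A ∧ ∀ x, |U x| ≤ A := by
  obtain ⟨A, hA⟩ := isCompact_Icc.exists_bound_of_continuousOn
    (s := Set.Icc (0 : ℝ) 1) hc.continuousOn
  refine ⟨max A 0, le_max_right _ _, fun x => ?_⟩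
  have h1 : U x = U (Int.fract x) := by
    have := hU.sub_int_mul_eq (x := x) ⌊x⌋
    rw [mul_one] at this
    exact this.symm
  rw [h1]
  exact (hA _ ⟨Int.fract_nonneg x, (Int.fract_lt_one x).le⟩).trans (le_max_left _ _)

/-- One dimensional approximation. -/
theorem quant_one {k : ℝ} (hk0 : 0 < k) (hk1 : k < 1) {u : ℝ → ℝ} (hu : Function.Periodic u 1)
    (hd : ContDiff ℝ ∞ u) {η : ℝ} (hη : 0 < η) :
    ∃ (ut : ℝ → ℝ) (G : ℕ) (Z : Set UnitAddCircle), Function.Periodic ut 1 ∧ ContDiff ℝ ∞ ut ∧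
      (volume : Measure UnitAddCircle) Z ≤ ENNReal.ofReal η ∧
      (∀ t, t ∉ Z → ∃ z : ℤ, (2 : ℝ) ^ G * cf ut t = z) ∧ (∀ x, |ut x - u x| ≤ η) ∧
      (Summable fun n : ℤ => ‖fone (fun x => ut x - u x) n‖ ^ 2 * (1 + (n : ℝ) ^ 2) ^ k) ∧
      ∑' n : ℤ, ‖fone (fun x => ut x - u x) n‖ ^ 2 * (1 + (n : ℝ) ^ 2) ^ k ≤ η := by
  obtain ⟨C, hC0, hC⟩ := smooth_deriv_bound
  have hcd : Continuous (deriv u) := hd.continuous_deriv (by simp)
  obtain ⟨D, hD0, hD⟩ := periodic_bound (periodic_deriv hu) hcd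
  -- the number of shifts
  obtain ⟨R, hR2, hRη⟩ : ∃ R : ℕ, 2 ≤ R ∧ 1 / (R : ℝ) ≤ η := by
    obtain ⟨R, hR⟩ := exists_nat_gt (1 / η)
    refine ⟨R + 2, by omega, ?_⟩
    rw [div_le_iff₀ (by positivity)]
    rw [div_lt_iff₀ hη] at hR
    push_cast
    nlinarith
  have hR' : (0 : ℝ) < R := by
    have : 0 < R := by omega
    exact_mod_cast this
  set δ : ℝ := 1 / R with hδdef
  have hδ : 0 < δ := by positivity
  have hδ1 : δ < 1 := by
    rw [hδdef, div_lt_one hR']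
    have : (2 : ℝ) ≤ R := by exact_mod_cast hR2
    linarith
  -- derivative bound of the difference
  set B : ℝ := C / δ * D + D with hB
  have hB0 : 0 ≤ B := by positivity
  -- the splitting parameter
  obtain ⟨T, hT1, hT⟩ : ∃ T : ℝ, 1 ≤ T ∧ T ^ (k - 1) * (9 + B ^ 2) ≤ η / 2 := by
    have h1 : Filter.Tendsto (fun T : ℝ => T ^ (-(1 - k)) * (9 + B ^ 2)) Filter.atTop
        (nhds (0 * (9 + B ^ 2))) :=
      (tendsto_rpow_neg_atTop (by linarith)).mul_const _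
    rw [zero_mul] at h1
    have h2 := (h1.eventually (gt_mem_nhds (half_pos hη))).and (Filter.eventually_ge_atTop 1)
    obtain ⟨T, hT, hT1⟩ := h2.exists
    refine ⟨T, hT1, ?_⟩
    have e : k - 1 = -(1 - k) := by ring
    rw [e]
    exact hT.le
  -- the depth
  obtain ⟨G, hG1, hG2⟩ : ∃ G : ℕ, 3 / (2 : ℝ) ^ G ≤ η ∧ T ^ k * (3 / (2 : ℝ) ^ G) ^ 2 ≤ η / 2 := by
    have h1 : Filter.Tendsto (fun G : ℕ => 3 / (2 : ℝ) ^ G) Filter.atTop (nhds 0) := by
      have := (tendsto_pow_atTop_nhds_zero_of_lt_one (r := (1 / 2 : ℝ)) (by norm_num)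
        (by norm_num)).const_mul 3
      rw [mul_zero] at this
      refine this.congr fun n => ?_
      rw [one_div, inv_pow]
      rfl
    have h2 : Filter.Tendsto (fun G : ℕ => T ^ k * (3 / (2 : ℝ) ^ G) ^ 2) Filter.atTop (nhds 0) := by
      have := (h1.pow 2).const_mul (T ^ k)
      simpa using this
    obtain ⟨G, hG⟩ := ((h1.eventually (gt_mem_nhds hη)).and
      (h2.eventually (gt_mem_nhds (half_pos hη)))).exists
    exact ⟨G, hG.1.le, hG.2.le⟩
  have h2G : (0 : ℝ) < 2 ^ G := by positivity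
  have h2G1 : (1 : ℝ) ≤ 2 ^ G := one_le_pow₀ (by norm_num)
  -- the shift
  obtain ⟨s, hs0, hs1, hZ⟩ := exists_shift (fun t => (2 : ℝ) ^ G * cf u t)
    (continuous_const.mul (cf_continuous hu hd.continuous)) R (by omega)
  set ut : ℝ → ℝ := fun x => st δ ((2 : ℝ) ^ G * u x + s) / 2 ^ G with hut
  have hper : Function.Periodic ut 1 := by
    intro x
    simp only [hut, hu x]
  have hinner : ContDiff ℝ ∞ fun x => (2 : ℝ) ^ G * u x + s :=
    (contDiff_const.mul hd).add contDiff_const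
  have hsm : ContDiff ℝ ∞ ut := ((st_contDiff hδ hδ1).comp hinner).div_const _
  have hdiff3 : ∀ x, |ut x - u x| ≤ 3 / 2 ^ G := by
    intro x
    have e1 : ut x - u x = (st δ ((2 : ℝ) ^ G * u x + s) - ((2 : ℝ) ^ G * u x + s) + s) / 2 ^ G := by
      simp only [hut]
      field_simp
      ring
    rw [e1, abs_div, abs_of_pos h2G]
    refine div_le_div_of_nonneg_right ?_ h2G.le
    refine (abs_add_le _ _).trans ?_
    have := st_near δ ((2 : ℝ) ^ G * u x + s)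
    rw [abs_of_nonneg hs0]
    linarith
  have hdB : ∀ x, |deriv (fun x => ut x - u x) x| ≤ B := by
    intro x
    have hdu : HasDerivAt u (deriv u x) x := (hd.differentiable (by simp) x).hasDerivAt
    have hin : HasDerivAt (fun x => (2 : ℝ) ^ G * u x + s) ((2 : ℝ) ^ G * deriv u x) x :=
      (hdu.const_mul _).add_const s
    have hst : HasDerivAt (st δ) (deriv (st δ) ((2 : ℝ) ^ G * u x + s)) ((2 : ℝ) ^ G * u x + s) :=
      ((st_contDiff hδ hδ1).differentiable (by simp) _).hasDerivAt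
    have h1 : HasDerivAt ut
        (deriv (st δ) ((2 : ℝ) ^ G * u x + s) * ((2 : ℝ) ^ G * deriv u x) / 2 ^ G) x :=
      (hst.comp x hin).div_const _
    have h2 := (h1.sub hdu).deriv
    have h3 : deriv (fun x => ut x - u x) x =
        deriv (st δ) ((2 : ℝ) ^ G * u x + s) * ((2 : ℝ) ^ G * deriv u x) / 2 ^ G - deriv u x := h2
    rw [h3]
    have e2 : deriv (st δ) ((2 : ℝ) ^ G * u x + s) * ((2 : ℝ) ^ G * deriv u x) / 2 ^ G =
        deriv (st δ) ((2 : ℝ) ^ G * u x + s) * deriv u x := by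
      field_simp
    rw [e2]
    refine (abs_sub _ _).trans ?_
    rw [abs_mul]
    have h4 := st_deriv hδ hδ1 hC ((2 : ℝ) ^ G * u x + s)
    have h5 := hD x
    have h6 : |deriv (st δ) ((2 : ℝ) ^ G * u x + s)| * |deriv u x| ≤ C / δ * D :=
      mul_le_mul h4 h5 (abs_nonneg _) (by positivity)
    linarith
  have hwper : Function.Periodic (fun x => ut x - u x) 1 := by
    intro x
    simp only [hper x, hu x]
  obtain ⟨hsum, hle⟩ := norm_bound hk0 hk1 hwper (hsm.sub hd) hdiff3 hdB hT1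
  refine ⟨ut, G, {t | Int.fract ((2 : ℝ) ^ G * cf u t + s) < 1 / R}, hper, hsm,
    hZ.trans (ENNReal.ofReal_le_ofReal hRη), ?_, fun x => (hdiff3 x).trans hG1, hsum, ?_⟩
  · intro t ht
    rw [Set.mem_setOf_eq, not_lt] at ht
    refine ⟨⌊(2 : ℝ) ^ G * cf u t + s⌋, ?_⟩
    have h1 : cf ut t = st δ ((2 : ℝ) ^ G * cf u t + s) / 2 ^ G := rfl
    rw [h1, st_int hδ ht]
    field_simp
  · refine hle.trans ?_
    have h7 : (3 / (2 : ℝ) ^ G) ^ 2 ≤ 9 := by
      have : 3 / (2 : ℝ) ^ G ≤ 3 := by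
        rw [div_le_iff₀ h2G]
        linarith
      have h0 : 0 ≤ 3 / (2 : ℝ) ^ G := by positivity
      nlinarith
    have h8 : T ^ (k - 1) * ((3 / (2 : ℝ) ^ G) ^ 2 + B ^ 2) ≤ T ^ (k - 1) * (9 + B ^ 2) := by
      have : 0 ≤ T ^ (k - 1) := Real.rpow_nonneg (by linarith) _
      gcongr
    linarith

end

end Pool.Agent.W347.RN.Quant
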